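import Mathlib

set_option autoImplicit false

namespace Pool.Agent.H612K.LW

open NumberField

lemma exists_sep {L : Type} [Field L] [NumberField L] (σ τ : L ≃ₐ[ℚ] L) (h : σ ≠ τ) :
    ∃ x : 𝓞 L, RingOfIntegers.mapRingHom (σ : L →+* L) x ≠
      RingOfIntegers.mapRingHom (τ : L →+* L) x := by
  by_contra hcon
  push Not at hcon
  apply h
  ext y
  obtain ⟨a, b, hb, rfl⟩ := IsFractionRing.div_surjective (A := 𝓞 L) y
  have h1 : ∀ x : 𝓞 L, σ (algebraMap (𝓞 L) L x) = τ (algebraMap (𝓞 L) L x) := by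
    intro x
    have := congrArg (algebraMap (𝓞 L) L) (hcon x)
    exact this
  rw [map_div₀, map_div₀, h1, h1]

lemma exists_int {L : Type} [Field L] [NumberField L] (σ τ : L ≃ₐ[ℚ] L) :
    ∃ n : ℕ, 0 < n ∧ (σ ≠ τ → ∃ x : 𝓞 L, (RingOfIntegers.mapRingHom (σ : L →+* L) x -
      RingOfIntegers.mapRingHom (τ : L →+* L) x) ∣ (n : 𝓞 L)) := by
  by_cases h : σ = τ
  · exact ⟨1, one_pos, fun h' => absurd h h'⟩
  · obtain ⟨x, hx⟩ := exists_sep σ τ h
    set D := RingOfIntegers.mapRingHom (σ : L →+* L) x -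
      RingOfIntegers.mapRingHom (τ : L →+* L) x with hD
    have hD0 : D ≠ 0 := sub_ne_zero.2 hx
    refine ⟨Ideal.absNorm (Ideal.span {D}), ?_, fun _ => ⟨x, ?_⟩⟩
    · rw [Nat.pos_iff_ne_zero, Ne, Ideal.absNorm_eq_zero_iff, Ideal.span_singleton_eq_bot]
      exact hD0
    · have := Ideal.absNorm_mem (Ideal.span {D})
      rwa [Ideal.mem_span_singleton] at this

theorem A1core (L : Type) [Field L] [NumberField L] (hG : IsGalois ℚ L) :
    ∃ m : ℕ, 0 < m ∧ ∀ p : ℕ, p.Prime → ¬ p ∣ m → Finite (𝓞 L →+* ZMod p) →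
      Nonempty (𝓞 L →+* ZMod p) →
    Module.finrank ℚ L ≤ Nat.card (𝓞 L →+* ZMod p) := by
  classical
  choose n hn0 hn using fun q : (L ≃ₐ[ℚ] L) × (L ≃ₐ[ℚ] L) => exists_int q.1 q.2
  refine ⟨∏ q : (L ≃ₐ[ℚ] L) × (L ≃ₐ[ℚ] L), n q, Finset.prod_pos fun q _ => hn0 q, ?_⟩
  intro p hp hpm hfin hne
  obtain ⟨φ⟩ := hne
  rw [← IsGalois.card_aut_eq_finrank ℚ L]
  refine Nat.card_le_card_of_injective
    (fun σ : L ≃ₐ[ℚ] L => φ.comp (RingOfIntegers.mapRingHom (σ : L →+* L))) ?_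
  intro σ τ hst
  by_contra hne
  obtain ⟨x, hx⟩ := hn (σ, τ) hne
  have h1 : φ (RingOfIntegers.mapRingHom (σ : L →+* L) x) =
      φ (RingOfIntegers.mapRingHom (τ : L →+* L) x) := by
    have := congrArg (fun f : 𝓞 L →+* ZMod p => f x) hst
    exact this
  obtain ⟨c, hc⟩ := hx
  have h2 : ((n (σ, τ) : ℕ) : ZMod p) = 0 := by
    have h3 := congrArg φ hc
    rw [map_natCast, map_mul, map_sub] at h3
    simp only at h3
    rw [h1, sub_self, zero_mul] at h3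
    exact h3
  rw [ZMod.natCast_eq_zero_iff] at h2
  exact hpm (h2.trans (Finset.dvd_prod_of_mem n (Finset.mem_univ (σ, τ))))

end Pool.Agent.H612K.LW
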