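import Pool.Agent.H74R6.LW.Stmts
import Pool.Agent.H332R2.PIT.Main
import Pool.Agent.H484R2.HomExt
import Pool.Agent.H612K.LW.A1core

set_option autoImplicit false

namespace Pool.Agent.H612K.LW

open NumberField

theorem taskA1 : Pool.Agent.H74R6.LW.TaskA1 := by
  intro L _ _ hG
  obtain ⟨m, hm, h⟩ := A1core L hG
  refine ⟨m, hm, fun p hp hpm hne => ?_⟩
  have hfact : Fact p.Prime := ⟨hp⟩
  have hfin := Pool.Agent.H484R2.hom_finite L p
  have h1 := h p hp hpm hfin hne
  have h2 := H332.PIT.hc_cast_le (K := L) hp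
  have h3 : Nat.card (𝓞 L →+* ZMod p) ≤ Module.finrank ℚ L := by exact_mod_cast h2
  exact le_antisymm h3 h1

end Pool.Agent.H612K.LW
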